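import Pool.Agent.K3H.Small

/-!
Rational points of bounded height on the Kummer surface `Km(E x E')`, in the model
`w^2 = f(x) g(z)`, that lie on quadratic twists having a rational point of small height.
-/

namespace Pool.Agent.Results.MP_d4c2b9_nt.KummerSmallTwist

open Height

/-- The cubic `x^3 + a x + b`. -/
def cub {K : Type*} [Field K] (a b x : K) : K := x ^ 3 + a * x + b

/-- The points `(x, z, w)`, `w ≠ 0`, of `w^2 = f(x) g(z)`, where `f = x^3 + a x + b` and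
`g = x^3 + a' x + b'`, with `H(x) H(z) ≤ B`, such that for `D = f(x)` the curve `D y^2 = f(t)` or
the curve `D y^2 = g(t)` has a `K`-rational point `(t, y)` with `y ≠ 0` and `H(t) ≤ B ^ θ`. -/
def smallSet {K : Type*} [Field K] [NumberField K] (a b a' b' : K) (θ B : ℝ) :
    Set (K × K × K) :=
  {p | p.2.2 ^ 2 = cub a b p.1 * cub a' b' p.2.1 ∧ p.2.2 ≠ 0 ∧
    mulHeight₁ p.1 * mulHeight₁ p.2.1 ≤ B ∧
    ∃ t y : K, y ≠ 0 ∧ mulHeight₁ t ≤ B ^ θ ∧
      (cub a b p.1 * y ^ 2 = cub a b t ∨ cub a b p.1 * y ^ 2 = cub a' b' t)}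

lemma finite_of_bound {α : Type*} {S : Set α} {c : ℝ}
    (h : ∀ s : Finset α, (∀ p ∈ s, p ∈ S) → (s.card : ℝ) ≤ c) :
    S.Finite ∧ (S.ncard : ℝ) ≤ c := by
  classical
  have hfin : S.Finite := by
    by_contra hinf
    obtain ⟨n, hn⟩ := exists_nat_gt c
    obtain ⟨s, hs, hcard⟩ := Set.Infinite.exists_subset_card_eq hinf n
    have := h s (fun p hp => hs hp)
    rw [hcard] at this
    linarith
  refine ⟨hfin, ?_⟩
  have := h hfin.toFinset (fun p hp => by simpa using hp)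
  rwa [Set.ncard_eq_toFinset_card S hfin]

/-- Over any number field the points of `smallSet` number `O(B ^ (2 θ + ε))`. -/
theorem result {K : Type*} [Field K] [NumberField K] (a b a' b' : K)
    (hd : 4 * a ^ 3 + 27 * b ^ 2 ≠ 0) (hd' : 4 * a' ^ 3 + 27 * b' ^ 2 ≠ 0)
    (θ ε : ℝ) (hθ : 0 ≤ θ) (hε : 0 < ε) :
    ∃ C : ℝ, ∀ B : ℝ, 1 ≤ B → (smallSet a b a' b' θ B).Finite ∧
      ((smallSet a b a' b' θ B).ncard : ℝ) ≤ C * B ^ (2 * θ + ε) := by
  classical
  obtain ⟨C, _, hC⟩ := K3H.small_count hd hd' θ ε hθ hε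
  refine ⟨C, fun B hB => ?_⟩
  apply finite_of_bound
  intro s hs
  apply hC B hB s
  intro p hp
  obtain ⟨h1, h2, h3, t, y, hy, ht, h4⟩ := hs p hp
  refine ⟨h1, h2, h3, ?_⟩
  rcases h4 with h4 | h4
  · exact Or.inl ⟨t, y, hy, h4, ht⟩
  · exact Or.inr ⟨t, y, hy, h4, ht⟩

end Pool.Agent.Results.MP_d4c2b9_nt.KummerSmallTwist
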